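import Pool.Agent.H21.Tile.Main

namespace Pool.Agent.Results.MP_53afc0_co.ChromaticBound

open Finset

/-- In the edge colouring `c` of the complete graph on `N` vertices, the edges of some colour `j`
inside `S` contain a spanning copy of the member of the family with `|S|` vertices. -/
def HasMonoCopy {k N : ℕ} (F : (r : ℕ) → SimpleGraph (Fin r)) (c : Sym2 (Fin N) → Fin k)
    (S : Finset (Fin N)) : Prop :=
  ∃ (j : Fin k) (e : Fin S.card ≃ S), ∀ a b, (F S.card).Adj a b → c s(↑(e a), ↑(e b)) = j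

open Classical Pool.Agent.H21.Tile in
lemma unfold_tiles {α : Type} {k m : ℕ} {F : (r : ℕ) → SimpleGraph (Fin r)}
    {col : α → α → Fin k} {V : Finset α} (h : Tiles F col V m) :
    ∃ P : Finset (Finset α), P.card ≤ m ∧ (∀ p ∈ P, p.Nonempty) ∧
      (∀ p ∈ P, ∃ (j : Fin k) (r : ℕ) (f : Fin r → α), Function.Injective f ∧
        (∀ y, y ∈ p ↔ ∃ i, f i = y) ∧ ∀ a b, (F r).Adj a b → col (f a) (f b) = j) ∧
      (∀ p ∈ P, ∀ p' ∈ P, p ≠ p' → Disjoint p p') ∧ ∀ x ∈ V, ∃ p ∈ P, x ∈ p := by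
  obtain ⟨P, h1, h2, h3, h4⟩ := h
  refine ⟨P, h1, fun p hp => (h2 p hp).1, ?_, h3, ?_⟩
  · intro p hp
    obtain ⟨-, j, r, f, hf1, hf2, hf3⟩ := h2 p hp
    refine ⟨j, r, f, hf1, fun y => ?_, hf3⟩
    rw [← hf2, mem_image]
    exact ⟨fun ⟨i, _, hi⟩ => ⟨i, hi⟩, fun ⟨i, hi⟩ => ⟨i, mem_univ _, hi⟩⟩
  · intro x hx
    rw [← h4, mem_biUnion] at hx
    exact hx

open Pool.Agent.H21.Tile in
theorem result : ∀ k : ℕ, ∃ C : ℕ, ∀ (q Δ : ℕ) (F : (r : ℕ) → SimpleGraph (Fin r)),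
    1 ≤ Δ → (∀ r, (F r).Colorable q) → (∀ r v, ((F r).neighborSet v).ncard ≤ Δ) →
    ∀ (N : ℕ) (c : Sym2 (Fin N) → Fin k),
      ∃ P : Finpartition (univ : Finset (Fin N)),
        P.parts.card ≤ 2 ^ (2 ^ (C * q) * Δ) ∧ ∀ S ∈ P.parts, HasMonoCopy F c S := by
  intro k
  -- the case of no vertices
  have hzero : ∀ (B : ℕ) (F : (r : ℕ) → SimpleGraph (Fin r)) (c : Sym2 (Fin 0) → Fin k),
      ∃ P : Finpartition (univ : Finset (Fin 0)), P.parts.card ≤ B ∧
        ∀ S ∈ P.parts, HasMonoCopy F c S := by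
    intro B F c
    have h0 : (univ : Finset (Fin 0)) = ⊥ := by rw [univ_eq_empty]; rfl
    rw [h0]
    exact ⟨Finpartition.empty _, by simp, by simp⟩
  rcases Nat.eq_zero_or_pos k with hk | hk
  · subst hk
    refine ⟨0, fun q Δ F _ _ _ N c => ?_⟩
    rcases Nat.eq_zero_or_pos N with hN | hN
    · subst hN; exact hzero _ F c
    · exact (c s(⟨0, hN⟩, ⟨0, hN⟩)).elim0
  obtain ⟨C, hC⟩ := main_tiles k hk
  refine ⟨C, fun q Δ F hΔ hcol hdeg N c => ?_⟩
  rcases Nat.eq_zero_or_pos N with hN | hN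
  · subst hN; exact hzero _ F c
  have hq : 1 ≤ q := by
    obtain ⟨f⟩ := hcol 1
    have := (f 0).2
    omega
  have : Nonempty (Fin N) := ⟨⟨0, hN⟩⟩
  have hdeg' : ∀ r (x : Fin r), (@filter _ ((F r).Adj x) (Classical.decPred _) univ).card ≤ Δ := by
    intro r x
    classical
    have h1 := hdeg r x
    have h2 : (F r).neighborSet x =
        ((@filter _ ((F r).Adj x) (Classical.decPred _) univ : Finset (Fin r)) : Set (Fin r)) := by
      ext y; simp
    rw [h2, Set.ncard_coe_finset] at h1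
    exact h1
  have hcol' : ∀ r, ∃ f : Fin r → Fin q, ∀ x y, (F r).Adj x y → f x ≠ f y := by
    intro r
    obtain ⟨f⟩ := hcol r
    exact ⟨f, fun x y h => f.valid h⟩
  obtain ⟨P, hP1, hP2, hP3, hP4, hP5⟩ := unfold_tiles (hC q Δ hq hΔ F
    (fun r x => by convert hdeg' r x) hcol' (fun a b => c s(a, b))
    (fun a b => by rw [Sym2.eq_swap]) (univ : Finset (Fin N)))
  refine ⟨⟨P, ?_, ?_, ?_⟩, hP1, ?_⟩
  · rw [supIndep_iff_pairwiseDisjoint]
    intro p hp p' hp' hne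
    exact hP4 p hp p' hp' hne
  · ext x
    rw [mem_sup]
    exact ⟨fun _ => mem_univ x, fun hx => hP5 x hx⟩
  · intro h
    exact (hP2 _ h).ne_empty rfl
  · intro S hS
    obtain ⟨j, r, f, hf1, hf2, hf3⟩ := hP3 S hS
    have hmem : ∀ i, f i ∈ S := fun i => (hf2 _).mpr ⟨i, rfl⟩
    have e : Fin r ≃ S := Equiv.ofBijective (fun i => (⟨f i, hmem i⟩ : S))
      ⟨fun a b hab => hf1 (congrArg Subtype.val hab), fun ⟨y, hy⟩ => by
        obtain ⟨i, hi⟩ := (hf2 y).mp hy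
        exact ⟨i, Subtype.ext hi⟩⟩
    have hr : S.card = r := by
      have := Fintype.card_congr e
      rw [Fintype.card_fin, Fintype.card_coe] at this
      exact this.symm
    subst hr
    refine ⟨j, Equiv.ofBijective (fun i => (⟨f i, hmem i⟩ : S))
      ⟨fun a b hab => hf1 (congrArg Subtype.val hab), fun ⟨y, hy⟩ => ?_⟩, fun a b hab => ?_⟩
    · obtain ⟨i, hi⟩ := (hf2 y).mp hy
      exact ⟨i, Subtype.ext hi⟩
    · exact hf3 a b hab

end Pool.Agent.Results.MP_53afc0_co.ChromaticBound
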