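import Pool.Agent.H21.Poly.Copy

namespace Pool.Agent.Results.MP_53afc0_co.ManyColours

open Finset Pool.Agent.H21.Poly

theorem result : ∀ k : ℕ, ∃ C : ℕ, ∀ (Δ : ℕ) (F : (r : ℕ) → SimpleGraph (Fin r)), 2 ≤ Δ →
    (∀ r v, ((F r).neighborSet v).ncard ≤ Δ) → ∀ (N : ℕ) (c : Sym2 (Fin N) → Fin k),
      ∃ P : Finpartition (univ : Finset (Fin N)),
        P.parts.card ≤ 2 ^ (Δ ^ C) ∧ ∀ S ∈ P.parts, HasMonoCopy F c S := by
  intro k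
  obtain ⟨C, hC⟩ := poly_partition k
  obtain ⟨e, he⟩ := PB_EF k C
  refine ⟨e, fun Δ F hΔ hdeg N c => ?_⟩
  obtain ⟨P, hP1, hP2⟩ := hC (Δ + 1) Δ (by omega) F hdeg (colorable_of_deg F hdeg) N c
  exact ⟨P, hP1.trans (Nat.pow_le_pow_right (by norm_num) (he Δ hΔ)), hP2⟩

end Pool.Agent.Results.MP_53afc0_co.ManyColours
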