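import Pool.Agent.H21.Poly.Copy

namespace Pool.Agent.Results.MP_53afc0_co.ThreeColours

open Finset Pool.Agent.H21.Poly

theorem result : ∃ C : ℕ, ∀ (Δ : ℕ) (F : (r : ℕ) → SimpleGraph (Fin r)), 1 ≤ Δ →
    (∀ r v, ((F r).neighborSet v).ncard ≤ Δ) → ∀ (N : ℕ) (c : Sym2 (Fin N) → Fin 3),
      (∃ P : Finpartition (univ : Finset (Fin N)),
        P.parts.card ≤ 2 ^ (C * Δ ^ 2) ∧ ∀ S ∈ P.parts, HasMonoCopy F c S) ∧
      ∀ q : ℕ, (∀ r, (F r).Colorable q) → ∃ P : Finpartition (univ : Finset (Fin N)),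
        P.parts.card ≤ 2 ^ (C * (Δ * (q + (Nat.log 2 Δ + 1) ^ 2))) ∧
          ∀ S ∈ P.parts, HasMonoCopy F c S := by
  obtain ⟨C, hC⟩ := poly_partition 3
  refine ⟨C * 3647 * 6, fun Δ F hΔ hdeg N c => ⟨?_, fun q hq => ?_⟩⟩
  · obtain ⟨P, hP1, hP2⟩ := hC (Δ + 1) Δ hΔ F hdeg (colorable_of_deg F hdeg) N c
    refine ⟨P, hP1.trans (Nat.pow_le_pow_right (by norm_num) ?_), hP2⟩
    have h1 := EF_three (Δ + 1) Δ hΔ
    have h2 := lg_sq_le Δ hΔ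
    have h3 : Δ * (Δ + 1 + lg Δ ^ 2) ≤ 6 * Δ ^ 2 := by nlinarith
    calc C * EF 3 (Δ + 1) Δ ≤ C * (3647 * (Δ * (Δ + 1 + lg Δ ^ 2))) := Nat.mul_le_mul_left _ h1
      _ ≤ C * (3647 * (6 * Δ ^ 2)) := by gcongr
      _ = _ := by ring
  · obtain ⟨P, hP1, hP2⟩ := hC q Δ hΔ F hdeg hq N c
    refine ⟨P, hP1.trans (Nat.pow_le_pow_right (by norm_num) ?_), hP2⟩
    have h1 := EF_three q Δ hΔ
    calc C * EF 3 q Δ ≤ C * (3647 * (Δ * (q + lg Δ ^ 2))) := Nat.mul_le_mul_left _ h1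
      _ = C * 3647 * (Δ * (q + lg Δ ^ 2)) := by ring
      _ ≤ C * 3647 * 6 * (Δ * (q + lg Δ ^ 2)) :=
          Nat.mul_le_mul_right _ (Nat.le_mul_of_pos_right _ (by norm_num))

end Pool.Agent.Results.MP_53afc0_co.ThreeColours
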